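import Mathlib
import Pool.Agent.H225R2.SplitCore

/-!
# A min-max formula for the maximum incomplete splitting-off at a vertex of a digraph

`D = (V + s, A)` is a finite digraph, parallel arcs allowed.  It is given as the finite multiset
of its arcs, an arc being an ordered pair (tail, head) of elements of `Option V`; `some v` is the
vertex `v` of `V`, and `none` is the distinguished vertex `s`.
-/

namespace Pool.Agent.Results.MP_79518d_co.SplitMinMax

open Finset
open Pool.Agent.H225R2

variable {V : Type*} [DecidableEq V]

/-- A finite digraph on the vertex set `V + s` (parallel arcs allowed): the multiset of its arcs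
`(tail, head)`; `some v` stands for `v` in `V`, and `none` for `s`. -/
abbrev MDigraph (V : Type*) := Multiset (Option V × Option V)

/-- `rho D X`: the number of arcs of `D` entering `X`. -/
def rho (D : MDigraph V) (X : Finset (Option V)) : ℕ :=
  D.countP (fun a => a.1 ∉ X ∧ a.2 ∈ X)

/-- `delta D X`: the number of arcs of `D` leaving `X`. -/
def delta (D : MDigraph V) (X : Finset (Option V)) : ℕ :=
  D.countP (fun a => a.1 ∈ X ∧ a.2 ∉ X)

/-- A subset of `V`, seen as a subset of `V + s`. -/
def inV (X : Finset V) : Finset (Option V) := X.map Function.Embedding.some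

/-- The number of arcs from `s` to `X`, for `X` a subset of `V`. -/
def fromS (D : MDigraph V) (X : Finset V) : ℕ :=
  D.countP (fun a => a.1 = none ∧ a.2 ∈ inV X)

/-- The number of arcs from `X` to `s`, for `X` a subset of `V`. -/
def toS (D : MDigraph V) (X : Finset V) : ℕ :=
  D.countP (fun a => a.1 ∈ inV X ∧ a.2 = none)

/-- `D` is `k`-arc-connected in `V`. -/
def ConnInV [Fintype V] (D : MDigraph V) (k : ℕ) : Prop :=
  ∀ X : Finset V, X.Nonempty → X ≠ univ → k ≤ rho D (inV X) ∧ k ≤ delta D (inV X)

/-- A family of pairs (arc `us` entering `s`, arc `sv` leaving `s`) is given by the multiset `F` of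
the ordered pairs `(u, v)`; `pairArcs F` is the multiset of all arcs used by the family. -/
def pairArcs (F : Multiset (V × V)) : MDigraph V :=
  F.map (fun p => (some p.1, none)) + F.map (fun p => (none, some p.2))

/-- The digraph obtained by splitting off all pairs of the family: the used arcs are deleted, and
for each pair `(u, v)` with `u ≠ v` a new arc `uv` is added (loops are discarded). -/
def splitOff (D : MDigraph V) (F : Multiset (V × V)) : MDigraph V :=
  D - pairArcs F + (F.filter (fun p => p.1 ≠ p.2)).map (fun p => (some p.1, some p.2))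

/-- The family `F` consists of pairwise disjoint pairs of arcs of `D` and it is admissible. -/
def Admissible [Fintype V] (D : MDigraph V) (k : ℕ) (F : Multiset (V × V)) : Prop :=
  pairArcs F ≤ D ∧ ConnInV (splitOff D F) k

/-- A finite family of pairwise disjoint nonempty subsets of `V`. -/
def DisjointFamily (K : Finset (Finset V)) : Prop :=
  (∀ P ∈ K, P.Nonempty) ∧ (∀ P ∈ K, ∀ Q ∈ K, P ≠ Q → Disjoint P Q)

/-- The upper bounds for the case `delta(s) ≤ rho(s)`: the number `delta(s)`; for each family `K`
of `r ≥ 2` pairwise disjoint nonempty subsets the integer part of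
`(∑_{P ∈ K} (rho(V - P) + delta(s, P) - k)) / (r - 1)`; and for each such family with `r ≥ 3` the
integer part of `(∑_{P ∈ K} (rho(V - P) - k)) / (r - 2)`. -/
def boundsIn [Fintype V] (D : MDigraph V) (k : ℕ) : Set ℤ :=
  {b | b = delta D {none} ∨
    (∃ K : Finset (Finset V), DisjointFamily K ∧ 2 ≤ K.card ∧
      b = (∑ P ∈ K, ((rho D (inV Pᶜ) : ℤ) + fromS D P - k)) / ((K.card : ℤ) - 1)) ∨
    (∃ K : Finset (Finset V), DisjointFamily K ∧ 3 ≤ K.card ∧
      b = (∑ P ∈ K, ((rho D (inV Pᶜ) : ℤ) - k)) / ((K.card : ℤ) - 2))}

/-- The upper bounds for the case `rho(s) ≤ delta(s)` (all arcs reversed): the number `rho(s)`; for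
each family `K` of `r ≥ 2` pairwise disjoint nonempty subsets the integer part of
`(∑_{P ∈ K} (delta(V - P) + (number of arcs from P to s) - k)) / (r - 1)`; and for each such
family with `r ≥ 3` the integer part of `(∑_{P ∈ K} (delta(V - P) - k)) / (r - 2)`. -/
def boundsOut [Fintype V] (D : MDigraph V) (k : ℕ) : Set ℤ :=
  {b | b = rho D {none} ∨
    (∃ K : Finset (Finset V), DisjointFamily K ∧ 2 ≤ K.card ∧
      b = (∑ P ∈ K, ((delta D (inV Pᶜ) : ℤ) + toS D P - k)) / ((K.card : ℤ) - 1)) ∨
    (∃ K : Finset (Finset V), DisjointFamily K ∧ 3 ≤ K.card ∧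
      b = (∑ P ∈ K, ((delta D (inV Pᶜ) : ℤ) - k)) / ((K.card : ℤ) - 2))}

/-! ### Counting lemmas -/

theorem mem_inV_some (X : Finset V) (v : V) : (some v ∈ inV X) ↔ v ∈ X := by
  simp [inV]

theorem none_notMem_inV (X : Finset V) : (none : Option V) ∉ inV X := by
  simp [inV]

/-- arcs from `P` to `V - P` -/
def d0 [Fintype V] (D : MDigraph V) (P : Finset V) : ℕ :=
  D.countP (fun a => a.1 ∈ inV P ∧ a.2 ∈ inV Pᶜ)

theorem fromS_eq (D : MDigraph V) (P : Finset V) :
    (fromS D P : ℤ) = ∑ v ∈ P, (D.count (none, some v) : ℤ) := by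
  induction D using Multiset.induction_on with
  | empty => simp [fromS]
  | cons a D ih =>
    simp only [fromS, Multiset.countP_cons, Multiset.count_cons] at ih ⊢
    push_cast
    rw [Finset.sum_add_distrib, ← ih]
    congr 1
    obtain ⟨t, h⟩ := a
    rcases t with _ | t
    · rcases h with _ | h
      · simp [none_notMem_inV]
      · simp [mem_inV_some]
    · simp

theorem toS_eq (D : MDigraph V) (P : Finset V) :
    (toS D P : ℤ) = ∑ v ∈ P, (D.count (some v, none) : ℤ) := by
  induction D using Multiset.induction_on with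
  | empty => simp [toS]
  | cons a D ih =>
    simp only [toS, Multiset.countP_cons, Multiset.count_cons] at ih ⊢
    push_cast
    rw [Finset.sum_add_distrib, ← ih]
    congr 1
    obtain ⟨t, h⟩ := a
    rcases h with _ | h
    · rcases t with _ | t
      · simp [none_notMem_inV]
      · simp [mem_inV_some]
    · simp

theorem rho_compl [Fintype V] (D : MDigraph V) (P : Finset V) :
    rho D (inV Pᶜ) = d0 D P + fromS D Pᶜ := by
  induction D using Multiset.induction_on with
  | empty => simp [rho, d0, fromS]
  | cons a D ih =>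
    simp only [rho, d0, fromS, Multiset.countP_cons] at ih ⊢
    rw [ih]
    obtain ⟨t, h⟩ := a
    rcases t with _ | t
    · rcases h with _ | h
      · simp [none_notMem_inV]
      · simp only [none_notMem_inV, mem_inV_some, mem_compl]
        by_cases h1 : h ∈ P <;> simp [h1]; omega
    · rcases h with _ | h
      · simp [none_notMem_inV]
      · simp only [mem_inV_some, mem_compl]
        by_cases h1 : h ∈ P <;> by_cases h2 : t ∈ P <;> simp [h1, h2]; omega

theorem delta_eq [Fintype V] (D : MDigraph V) (P : Finset V) :
    delta D (inV P) = d0 D P + toS D P := by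
  induction D using Multiset.induction_on with
  | empty => simp [delta, d0, toS]
  | cons a D ih =>
    simp only [delta, d0, toS, Multiset.countP_cons] at ih ⊢
    rw [ih]
    obtain ⟨t, h⟩ := a
    rcases t with _ | t
    · simp [none_notMem_inV]
    · rcases h with _ | h
      · simp only [none_notMem_inV, mem_inV_some]
        by_cases h1 : t ∈ P <;> simp [h1]; omega
      · simp only [mem_inV_some, mem_compl]
        by_cases h1 : h ∈ P <;> by_cases h2 : t ∈ P <;> simp [h1, h2]; omega

theorem delta_none [Fintype V] (D : MDigraph V) : delta D {none} = fromS D univ := by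
  unfold delta fromS
  apply Multiset.countP_congr rfl
  intro a _
  obtain ⟨t, h⟩ := a
  rcases t with _ | t <;> rcases h with _ | h <;> simp [inV]

theorem rho_none [Fintype V] (D : MDigraph V) : rho D {none} = toS D univ := by
  unfold rho toS
  apply Multiset.countP_congr rfl
  intro a _
  obtain ⟨t, h⟩ := a
  rcases t with _ | t <;> rcases h with _ | h <;> simp [inV]

theorem d0_submod [Fintype V] (D : MDigraph V) (P Q : Finset V) :
    d0 D (P ∩ Q) + d0 D (P ∪ Q) ≤ d0 D P + d0 D Q := by
  induction D using Multiset.induction_on with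
  | empty => simp [d0]
  | cons a D ih =>
    simp only [d0, Multiset.countP_cons] at ih ⊢
    obtain ⟨t, h⟩ := a
    rcases t with _ | t
    · simpa [none_notMem_inV] using ih
    · rcases h with _ | h
      · simpa [none_notMem_inV] using ih
      · simp only [mem_inV_some, mem_compl, mem_inter, mem_union]
        by_cases h1 : h ∈ P <;> by_cases h2 : t ∈ P <;> by_cases h3 : h ∈ Q <;>
          by_cases h4 : t ∈ Q <;>
          simp only [h1, h2, h3, h4, and_true, true_and, and_false, false_and, or_true, true_or,
            or_false, false_or, not_true_eq_false, not_false_eq_true, if_true, if_false] <;> omega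

/-- the demand function -/
def dem [Fintype V] (D : MDigraph V) (k : ℕ) (P : Finset V) : ℤ := (k : ℤ) - d0 D P

theorem dem_cross [Fintype V] (D : MDigraph V) (k : ℕ) : CrossSup (dem D k) := by
  intro P Q _ _
  have := d0_submod D P Q
  unfold dem
  omega

theorem count_pairArcs_in (F : Multiset (V × V)) (v : V) :
    (pairArcs F).count (some v, none) = tailCount F v := by
  induction F using Multiset.induction_on with
  | empty => simp [pairArcs, tailCount]
  | cons p F ih =>
    simp only [pairArcs, tailCount, Multiset.map_cons, Multiset.cons_add, Multiset.add_cons,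
      Multiset.count_cons, Multiset.countP_cons] at ih ⊢
    rw [ih]
    by_cases h : p.1 = v
    · simp [h]
    · simp [h, Ne.symm h]

theorem count_pairArcs_out (F : Multiset (V × V)) (v : V) :
    (pairArcs F).count (none, some v) = headCount F v := by
  induction F using Multiset.induction_on with
  | empty => simp [pairArcs, headCount]
  | cons p F ih =>
    simp only [pairArcs, headCount, Multiset.map_cons, Multiset.cons_add, Multiset.add_cons,
      Multiset.count_cons, Multiset.countP_cons] at ih ⊢
    rw [ih]
    by_cases h : p.2 = v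
    · simp [h]
    · simp [h, Ne.symm h]

theorem count_pairArcs_ss (F : Multiset (V × V)) (u v : V) :
    (pairArcs F).count (some u, some v) = 0 := by
  rw [Multiset.count_eq_zero]
  simp [pairArcs]

theorem count_pairArcs_nn (F : Multiset (V × V)) :
    (pairArcs F).count (none, none) = 0 := by
  rw [Multiset.count_eq_zero]
  simp [pairArcs]

theorem pairArcs_le_iff (D : MDigraph V) (F : Multiset (V × V)) :
    pairArcs F ≤ D ↔ (∀ v, tailCount F v ≤ D.count (some v, none)) ∧
      (∀ v, headCount F v ≤ D.count (none, some v)) := by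
  rw [Multiset.le_iff_count]
  constructor
  · intro h
    exact ⟨fun v => by rw [← count_pairArcs_in]; exact h _,
      fun v => by rw [← count_pairArcs_out]; exact h _⟩
  · rintro ⟨h1, h2⟩ ⟨t, h⟩
    rcases t with _ | t <;> rcases h with _ | h
    · rw [count_pairArcs_nn]; exact Nat.zero_le _
    · rw [count_pairArcs_out]; exact h2 h
    · rw [count_pairArcs_in]; exact h1 t
    · rw [count_pairArcs_ss]; exact Nat.zero_le _

theorem countP_pairArcs (F : Multiset (V × V)) (p : Option V × Option V → Prop) [DecidablePred p] :
    (pairArcs F).countP p = F.countP (fun x => p (some x.1, none)) +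
      F.countP (fun x => p (none, some x.2)) := by
  rw [pairArcs, Multiset.countP_add, Multiset.countP_map, Multiset.countP_map,
    Multiset.countP_eq_card_filter, Multiset.countP_eq_card_filter]

theorem rho_split [Fintype V] (D : MDigraph V) (F : Multiset (V × V)) (h : pairArcs F ≤ D)
    (P : Finset V) :
    rho (splitOff D F) (inV Pᶜ) + insideCount F Pᶜ = rho D (inV Pᶜ) := by
  have h1 : rho (splitOff D F) (inV Pᶜ) + (pairArcs F).countP (fun a => a.1 ∉ inV Pᶜ ∧ a.2 ∈ inV Pᶜ)
      = rho D (inV Pᶜ) + crossCount F P := by
    have h2 : (pairArcs F).countP (fun a => a.1 ∉ inV Pᶜ ∧ a.2 ∈ inV Pᶜ) ≤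
        D.countP (fun a => a.1 ∉ inV Pᶜ ∧ a.2 ∈ inV Pᶜ) := Multiset.countP_le_of_le _ h
    unfold rho splitOff
    rw [Multiset.countP_add, Multiset.countP_sub h, Multiset.countP_map,
      ← Multiset.countP_eq_card_filter, Multiset.countP_filter]
    have h3 : Multiset.countP (fun a : V × V =>
        ((some a.1, some a.2) : Option V × Option V).1 ∉ inV Pᶜ ∧
        ((some a.1, some a.2) : Option V × Option V).2 ∈ inV Pᶜ ∧ a.1 ≠ a.2) F = crossCount F P := by
      unfold crossCount
      apply Multiset.countP_congr rfl
      intro x _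
      simp only [mem_inV_some, mem_compl, not_not, eq_iff_iff]
      constructor
      · rintro ⟨a, b, _⟩; exact ⟨a, b⟩
      · rintro ⟨a, b⟩; exact ⟨a, b, fun e => b (e ▸ a)⟩
    have h4 : Multiset.countP (fun a : V × V =>
        (((some a.1, some a.2) : Option V × Option V).1 ∉ inV Pᶜ ∧
        ((some a.1, some a.2) : Option V × Option V).2 ∈ inV Pᶜ) ∧ a.1 ≠ a.2) F = crossCount F P := by
      rw [← h3]
      apply Multiset.countP_congr rfl
      intro x _
      rw [and_assoc]
    rw [h4]
    omega
  have h5 : (pairArcs F).countP (fun a => a.1 ∉ inV Pᶜ ∧ a.2 ∈ inV Pᶜ) = headIn F Pᶜ := by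
    rw [countP_pairArcs]
    have e1 : F.countP (fun x => ((some x.1, none) : Option V × Option V).1 ∉ inV Pᶜ ∧
        ((some x.1, none) : Option V × Option V).2 ∈ inV Pᶜ) = 0 := by
      rw [Multiset.countP_eq_zero]
      intro x _ hx
      exact none_notMem_inV _ hx.2
    have e2 : F.countP (fun x => ((none, some x.2) : Option V × Option V).1 ∉ inV Pᶜ ∧
        ((none, some x.2) : Option V × Option V).2 ∈ inV Pᶜ) = headIn F Pᶜ := by
      unfold headIn
      apply Multiset.countP_congr rfl
      intro x _
      simp only [none_notMem_inV, mem_inV_some, not_false_eq_true, true_and]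
    rw [e1, e2, zero_add]
  have h6 := headIn_compl_split F P
  omega

theorem delta_split [Fintype V] (D : MDigraph V) (F : Multiset (V × V)) (h : pairArcs F ≤ D)
    (P : Finset V) :
    delta (splitOff D F) (inV P) + insideCount F P = delta D (inV P) := by
  have h1 : delta (splitOff D F) (inV P) + (pairArcs F).countP (fun a => a.1 ∈ inV P ∧ a.2 ∉ inV P)
      = delta D (inV P) + crossCount F P := by
    have h2 : (pairArcs F).countP (fun a => a.1 ∈ inV P ∧ a.2 ∉ inV P) ≤
        D.countP (fun a => a.1 ∈ inV P ∧ a.2 ∉ inV P) := Multiset.countP_le_of_le _ h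
    unfold delta splitOff
    rw [Multiset.countP_add, Multiset.countP_sub h, Multiset.countP_map,
      ← Multiset.countP_eq_card_filter, Multiset.countP_filter]
    have h4 : Multiset.countP (fun a : V × V =>
        (((some a.1, some a.2) : Option V × Option V).1 ∈ inV P ∧
        ((some a.1, some a.2) : Option V × Option V).2 ∉ inV P) ∧ a.1 ≠ a.2) F = crossCount F P := by
      unfold crossCount
      apply Multiset.countP_congr rfl
      intro x _
      simp only [mem_inV_some, eq_iff_iff]
      constructor
      · rintro ⟨h, _⟩; exact h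
      · rintro ⟨a, b⟩; exact ⟨⟨a, b⟩, fun e => b (e ▸ a)⟩
    rw [h4]
    omega
  have h5 : (pairArcs F).countP (fun a => a.1 ∈ inV P ∧ a.2 ∉ inV P) = tailIn F P := by
    rw [countP_pairArcs]
    have e1 : F.countP (fun x => ((none, some x.2) : Option V × Option V).1 ∈ inV P ∧
        ((none, some x.2) : Option V × Option V).2 ∉ inV P) = 0 := by
      rw [Multiset.countP_eq_zero]
      intro x _ hx
      exact none_notMem_inV _ hx.1
    have e2 : F.countP (fun x => ((some x.1, none) : Option V × Option V).1 ∈ inV P ∧
        ((some x.1, none) : Option V × Option V).2 ∉ inV P) = tailIn F P := by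
      unfold tailIn
      apply Multiset.countP_congr rfl
      intro x _
      simp only [none_notMem_inV, mem_inV_some, not_false_eq_true, and_true]
    rw [e1, e2, add_zero]
  have h6 := tailIn_split F P
  omega

theorem conn_iff [Fintype V] (D : MDigraph V) (k : ℕ) :
    ConnInV D k ↔ ∀ P : Finset V, NP P → k ≤ rho D (inV Pᶜ) ∧ k ≤ delta D (inV P) := by
  constructor
  · intro h P hP
    have hc := np_compl hP
    exact ⟨(h Pᶜ hc.1 hc.2).1, (h P hP.1 hP.2).2⟩
  · intro h X h1 h2
    have hc : NP Xᶜ := np_compl ⟨h1, h2⟩
    have := (h Xᶜ hc).1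
    rw [compl_compl] at this
    exact ⟨this, (h X ⟨h1, h2⟩).2⟩

/-- The exact criterion for `m` pairs, in the case `delta(s) ≤ rho(s)`. -/
theorem splittable_iff [Fintype V] (D : MDigraph V) (k : ℕ) (hD : ConnInV D k)
    (hs : delta D {none} ≤ rho D {none}) (m : ℕ) :
    (∃ F : Multiset (V × V), Admissible D k F ∧ F.card = m) ↔
      (m ≤ delta D {none} ∧
      (∀ K : Finset (Finset V), DisjointFamily K → 2 ≤ K.card →
        ((K.card : ℤ) - 1) * m ≤ ∑ P ∈ K, ((rho D (inV Pᶜ) : ℤ) + fromS D P - k)) ∧
      (∀ K : Finset (Finset V), DisjointFamily K → 3 ≤ K.card →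
        ((K.card : ℤ) - 2) * m ≤ ∑ P ∈ K, ((rho D (inV Pᶜ) : ℤ) - k))) := by
  rw [conn_iff] at hD
  -- the outgoing and incoming multiplicities
  set i : V → ℤ := fun v => (D.count (some v, none) : ℤ) with hi
  set o : V → ℤ := fun v => (D.count (none, some v) : ℤ) with ho
  have hO : (delta D {none} : ℤ) = ∑ v, o v := by rw [delta_none, fromS_eq]
  have hI : (rho D {none} : ℤ) = ∑ v, i v := by rw [rho_none, toS_eq]
  have hrho : ∀ P : Finset V, (rho D (inV Pᶜ) : ℤ) = (k : ℤ) - dem D k P + ∑ v ∈ Pᶜ, o v := by
    intro P
    rw [rho_compl]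
    push_cast
    rw [fromS_eq]
    unfold dem
    ring
  have hdelta : ∀ P : Finset V, (delta D (inV P) : ℤ) = (k : ℤ) - dem D k P + ∑ v ∈ P, i v := by
    intro P
    rw [delta_eq]
    push_cast
    rw [toS_eq]
    unfold dem
    ring
  have hfrom : ∀ P : Finset V, (fromS D P : ℤ) = ∑ v ∈ P, o v := fun P => fromS_eq D P
  have hterm1 : ∀ P : Finset V, (rho D (inV Pᶜ) : ℤ) + fromS D P - k = ∑ v, o v - dem D k P := by
    intro P
    rw [hrho, hfrom]
    have := Finset.sum_add_sum_compl P o
    linarith
  have hterm2 : ∀ P : Finset V, (rho D (inV Pᶜ) : ℤ) - k = ∑ v ∈ Pᶜ, o v - dem D k P := by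
    intro P
    rw [hrho]
    ring
  have ho0 : ∀ v, 0 ≤ o v := fun v => by positivity
  have hi0 : ∀ v, 0 ≤ i v := fun v => by positivity
  have hdi : ∀ P, NP P → dem D k P ≤ ∑ v ∈ P, i v := by
    intro P hP
    have h1 := (hD P hP).2
    have h2 := hdelta P
    zify at h1
    linarith
  have hdo : ∀ P, NP P → dem D k P ≤ ∑ v ∈ Pᶜ, o v := by
    intro P hP
    have h1 := (hD P hP).1
    have h2 := hrho P
    zify at h1
    linarith
  constructor
  · rintro ⟨F, ⟨hle, hconn⟩, hm⟩
    rw [conn_iff] at hconn
    have hle' := (pairArcs_le_iff D F).1 hle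
    have hP2 : ∀ P, NP P → dem D k P ≤ ∑ v ∈ Pᶜ, o v - insideCount F Pᶜ := by
      intro P hP
      have h1 := (hconn P hP).1
      have h2 := rho_split D F hle P
      have h3 := hrho P
      zify at h1 h2
      linarith
    have hDF : ∀ K : Finset (Finset V), DisjointFamily K → 2 ≤ K.card → DisjFam K := by
      intro K hK hc
      refine ⟨fun P hP => ⟨hK.1 P hP, ?_⟩, hK.2⟩
      rintro rfl
      obtain ⟨Q, hQ, hQP⟩ := Finset.exists_mem_ne (by omega : 1 < K.card) univ
      obtain ⟨x, hx⟩ := hK.1 Q hQ
      exact Finset.disjoint_left.1 (hK.2 Q hQ univ hP hQP) hx (mem_univ x)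
    refine ⟨?_, ?_, ?_⟩
    · have h1 := headIn_eq F (univ : Finset V)
      have h2 : headIn F (univ : Finset V) = F.card := by
        unfold headIn
        rw [Multiset.countP_eq_card]
        intro x _
        exact mem_univ _
      have h3 : ∑ v, (headCount F v : ℤ) ≤ ∑ v, o v :=
        Finset.sum_le_sum (fun v _ => Int.ofNat_le.2 (hle'.2 v))
      zify
      rw [hO, ← hm, ← h2, h1]
      exact h3
    · intro K hK hc
      have h1 := core_nec1 (dem D k) o F (fun v => Int.ofNat_le.2 (hle'.2 v)) hP2 K (hDF K hK hc)
      rw [hm] at h1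
      rw [Finset.sum_congr rfl (fun P _ => hterm1 P)]
      exact h1
    · intro K hK hc
      have h1 := core_nec2 (dem D k) o F hP2 K (hDF K hK (by omega))
      rw [hm] at h1
      rw [Finset.sum_congr rfl (fun P _ => hterm2 P)]
      exact h1
  · rintro ⟨h0, h1, h2⟩
    obtain ⟨F, hF1, hF2, hF3, hF4, hF5⟩ := core_suff (dem D k) (dem_cross D k) i o hi0 ho0 hdi hdo m
      (by rw [← hO]; exact_mod_cast h0) (by rw [← hO, ← hI]; exact_mod_cast hs)
      (by
        intro K hK
        rcases Nat.lt_or_ge K.card 2 with hc | hc
        · have h3 : 0 ≤ ∑ P ∈ K, (∑ v, o v - dem D k P) := by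
            apply Finset.sum_nonneg
            intro P hP
            have h4 := hdo P (hK.1 P hP)
            have h5 : ∑ v ∈ Pᶜ, o v ≤ ∑ v, o v :=
              Finset.sum_le_sum_of_subset_of_nonneg (subset_univ _) (fun v _ _ => ho0 v)
            linarith
          have h4 : ((K.card : ℤ) - 1) * m ≤ 0 := by
            apply mul_nonpos_of_nonpos_of_nonneg
            · have : (K.card : ℤ) < 2 := by exact_mod_cast hc
              linarith [Int.lt_add_one_iff.1 (show (K.card : ℤ) < 1 + 1 by linarith)]
            · positivity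
          linarith
        · have h3 := h1 K ⟨fun P hP => (hK.1 P hP).1, hK.2⟩ hc
          rw [Finset.sum_congr rfl (fun P _ => hterm1 P)] at h3
          exact h3)
      (by
        intro K hK
        rcases Nat.lt_or_ge K.card 3 with hc | hc
        · have h3 : 0 ≤ ∑ P ∈ K, (∑ v ∈ Pᶜ, o v - dem D k P) := by
            apply Finset.sum_nonneg
            intro P hP
            have h4 := hdo P (hK.1 P hP)
            linarith
          have h4 : ((K.card : ℤ) - 2) * m ≤ 0 := by
            apply mul_nonpos_of_nonpos_of_nonneg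
            · have : (K.card : ℤ) < 3 := by exact_mod_cast hc
              linarith [Int.lt_add_one_iff.1 (show (K.card : ℤ) < 2 + 1 by linarith)]
            · positivity
          linarith
        · have h3 := h2 K ⟨fun P hP => (hK.1 P hP).1, hK.2⟩ hc
          rw [Finset.sum_congr rfl (fun P _ => hterm2 P)] at h3
          exact h3)
    have hle : pairArcs F ≤ D := by
      rw [pairArcs_le_iff]
      exact ⟨fun v => Int.ofNat_le.1 (hF2 v), fun v => Int.ofNat_le.1 (hF3 v)⟩
    refine ⟨F, ⟨hle, ?_⟩, hF1⟩
    rw [conn_iff]
    intro P hP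
    constructor
    · have h3 := rho_split D F hle P
      have h4 := hF5 P hP
      have h5 := hrho P
      zify at h3 ⊢
      linarith
    · have h3 := delta_split D F hle P
      have h4 := hF4 P hP
      have h5 := hdelta P
      zify at h3 ⊢
      linarith

/-- The min-max theorem in the case `delta(s) ≤ rho(s)`. -/
theorem minmax_in [Fintype V] (D : MDigraph V) (k : ℕ) (hD : ConnInV D k)
    (hs : delta D {none} ≤ rho D {none}) (μ : ℕ)
    (hμ : IsGreatest {m : ℕ | ∃ F : Multiset (V × V), Admissible D k F ∧ F.card = m} μ) :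
    IsLeast (boundsIn D k) (μ : ℤ) := by
  have hcrit := splittable_iff D k hD hs
  obtain ⟨hμ0, hμ1, hμ2⟩ := (hcrit μ).1 hμ.1
  constructor
  · -- attained
    by_contra hnot
    have hsucc : ∃ F : Multiset (V × V), Admissible D k F ∧ F.card = μ + 1 := by
      rw [hcrit]
      refine ⟨?_, ?_, ?_⟩
      · rcases Nat.lt_or_ge μ (delta D {none}) with h | h
        · exact h
        · exfalso
          exact hnot (Or.inl (by exact_mod_cast le_antisymm hμ0 h))
      · intro K hK hc
        by_contra hlt
        push Not at hlt
        apply hnot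
        refine Or.inr (Or.inl ⟨K, hK, hc, ?_⟩)
        have hpos : (0:ℤ) < (K.card : ℤ) - 1 := by
          have : (2:ℤ) ≤ K.card := by exact_mod_cast hc
          linarith
        apply le_antisymm
        · rw [Int.le_ediv_iff_mul_le hpos]
          have := hμ1 K hK hc
          linarith
        · apply Int.le_of_lt_add_one
          rw [Int.ediv_lt_iff_lt_mul hpos]
          push_cast at hlt
          linarith
      · intro K hK hc
        by_contra hlt
        push Not at hlt
        apply hnot
        refine Or.inr (Or.inr ⟨K, hK, hc, ?_⟩)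
        have hpos : (0:ℤ) < (K.card : ℤ) - 2 := by
          have : (3:ℤ) ≤ K.card := by exact_mod_cast hc
          linarith
        apply le_antisymm
        · rw [Int.le_ediv_iff_mul_le hpos]
          have := hμ2 K hK hc
          linarith
        · apply Int.le_of_lt_add_one
          rw [Int.ediv_lt_iff_lt_mul hpos]
          push_cast at hlt
          linarith
    have := hμ.2 hsucc
    omega
  · -- lower bound
    rintro b (hb | ⟨K, hK, hc, hb⟩ | ⟨K, hK, hc, hb⟩)
    · rw [hb]; exact_mod_cast hμ0
    · have hpos : (0:ℤ) < (K.card : ℤ) - 1 := by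
        have : (2:ℤ) ≤ K.card := by exact_mod_cast hc
        linarith
      rw [hb, Int.le_ediv_iff_mul_le hpos]
      have := hμ1 K hK hc
      linarith
    · have hpos : (0:ℤ) < (K.card : ℤ) - 2 := by
        have : (3:ℤ) ≤ K.card := by exact_mod_cast hc
        linarith
      rw [hb, Int.le_ediv_iff_mul_le hpos]
      have := hμ2 K hK hc
      linarith

/-! ### Reversing all arcs -/

/-- the digraph with all arcs reversed -/
def rev (D : MDigraph V) : MDigraph V := D.map Prod.swap

omit [DecidableEq V] in
theorem countP_rev (D : MDigraph V) (p : Option V × Option V → Prop) [DecidablePred p] :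
    (rev D).countP p = D.countP (fun a => p a.swap) := by
  rw [rev, Multiset.countP_map, Multiset.countP_eq_card_filter]

theorem rho_rev (D : MDigraph V) (X : Finset (Option V)) : rho (rev D) X = delta D X := by
  unfold rho delta
  rw [countP_rev]
  apply Multiset.countP_congr rfl
  intro a _
  simp only [Prod.fst_swap, Prod.snd_swap, and_comm]

theorem delta_rev (D : MDigraph V) (X : Finset (Option V)) : delta (rev D) X = rho D X := by
  unfold rho delta
  rw [countP_rev]
  apply Multiset.countP_congr rfl
  intro a _
  simp only [Prod.fst_swap, Prod.snd_swap, and_comm]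

theorem fromS_rev (D : MDigraph V) (X : Finset V) : fromS (rev D) X = toS D X := by
  unfold fromS toS
  rw [countP_rev]
  apply Multiset.countP_congr rfl
  intro a _
  simp only [Prod.fst_swap, Prod.snd_swap, and_comm]

theorem conn_rev [Fintype V] (D : MDigraph V) (k : ℕ) : ConnInV (rev D) k ↔ ConnInV D k := by
  unfold ConnInV
  simp only [rho_rev, delta_rev]
  constructor
  · intro h X h1 h2; exact (h X h1 h2).symm
  · intro h X h1 h2; exact (h X h1 h2).symm

omit [DecidableEq V] in
theorem rev_rev (D : MDigraph V) : rev (rev D) = D := by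
  unfold rev
  rw [Multiset.map_map]
  simp

omit [DecidableEq V] in
theorem pairArcs_swap (F : Multiset (V × V)) : pairArcs (F.map Prod.swap) = rev (pairArcs F) := by
  unfold pairArcs rev
  rw [Multiset.map_map, Multiset.map_map, Multiset.map_add, Multiset.map_map, Multiset.map_map,
    add_comm]
  rfl

theorem splitOff_swap (D : MDigraph V) (F : Multiset (V × V)) :
    splitOff (rev D) (F.map Prod.swap) = rev (splitOff D F) := by
  unfold splitOff
  rw [pairArcs_swap]
  have h1 : rev D - rev (pairArcs F) = rev (D - pairArcs F) := by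
    unfold rev
    ext a
    rw [Multiset.count_sub]
    have h2 : ∀ E : MDigraph V, (E.map Prod.swap).count a = E.count a.swap := by
      intro E
      have := Multiset.count_map_eq_count' Prod.swap E Prod.swap_injective a.swap
      rw [Prod.swap_swap] at this
      exact this
    rw [h2, h2, h2, Multiset.count_sub]
  have h3 : ((F.map Prod.swap).filter (fun p => p.1 ≠ p.2)).map
      (fun p : V × V => ((some p.1, some p.2) : Option V × Option V))
      = rev ((F.filter (fun p => p.1 ≠ p.2)).map (fun p => (some p.1, some p.2))) := by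
    unfold rev
    rw [Multiset.filter_map, Multiset.map_map, Multiset.map_map]
    have h4 : F.filter ((fun p : V × V => p.1 ≠ p.2) ∘ Prod.swap) = F.filter (fun p => p.1 ≠ p.2) := by
      apply Multiset.filter_congr
      intro x _
      simp only [Function.comp, Prod.fst_swap, Prod.snd_swap]
      exact ne_comm
    rw [h4]
    rfl
  rw [h1, h3]
  unfold rev
  rw [Multiset.map_add]

theorem admissible_swap [Fintype V] (D : MDigraph V) (k : ℕ) (F : Multiset (V × V))
    (h : Admissible D k F) : Admissible (rev D) k (F.map Prod.swap) := by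
  refine ⟨?_, ?_⟩
  · rw [pairArcs_swap]
    exact Multiset.map_le_map h.1
  · rw [splitOff_swap, conn_rev]
    exact h.2

theorem boundsIn_rev [Fintype V] (D : MDigraph V) (k : ℕ) :
    boundsIn (rev D) k = boundsOut D k := by
  unfold boundsIn boundsOut
  simp only [rho_rev, delta_rev, fromS_rev]

theorem sizes_rev [Fintype V] (D : MDigraph V) (k : ℕ) :
    {m : ℕ | ∃ F : Multiset (V × V), Admissible (rev D) k F ∧ F.card = m}
      = {m : ℕ | ∃ F : Multiset (V × V), Admissible D k F ∧ F.card = m} := by
  ext m
  constructor
  · rintro ⟨F, hF, hm⟩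
    refine ⟨F.map Prod.swap, ?_, by rw [Multiset.card_map]; exact hm⟩
    have := admissible_swap (rev D) k F hF
    rwa [rev_rev] at this
  · rintro ⟨F, hF, hm⟩
    exact ⟨F.map Prod.swap, admissible_swap D k F hF, by rw [Multiset.card_map]; exact hm⟩

/-- **Min-max formula for the maximum incomplete splitting-off.**
Let `D = (V + s, A)` be a finite digraph, parallel arcs allowed, which is `k`-arc-connected in `V`.
The maximum number `μ` of pairs in an admissible family at `s` exists, and it equals the minimum
of the explicit upper bounds: those of `boundsIn D k` if `delta(s) ≤ rho(s)`, and those of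
`boundsOut D k` if `rho(s) ≤ delta(s)`. -/
theorem result {V : Type*} [Fintype V] [DecidableEq V] (D : MDigraph V) (k : ℕ)
    (hD : ConnInV D k) :
    ∃ μ : ℕ,
      IsGreatest {m : ℕ | ∃ F : Multiset (V × V), Admissible D k F ∧ F.card = m} μ ∧
      (delta D {none} ≤ rho D {none} → IsLeast (boundsIn D k) (μ : ℤ)) ∧
      (rho D {none} ≤ delta D {none} → IsLeast (boundsOut D k) (μ : ℤ)) := by
  classical
  -- the set of sizes is nonempty and bounded
  have hne : (0 : ℕ) ∈ {m : ℕ | ∃ F : Multiset (V × V), Admissible D k F ∧ F.card = m} := by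
    refine ⟨0, ⟨?_, ?_⟩, rfl⟩
    · simp [pairArcs]
    · simpa [splitOff, pairArcs] using hD
  have hbd : ∀ m ∈ {m : ℕ | ∃ F : Multiset (V × V), Admissible D k F ∧ F.card = m}, m ≤ D.card := by
    rintro m ⟨F, ⟨hF, _⟩, hm⟩
    have := Multiset.card_le_card hF
    unfold pairArcs at this
    rw [Multiset.card_add, Multiset.card_map, Multiset.card_map] at this
    omega
  obtain ⟨μ, hμ⟩ : ∃ μ : ℕ,
      IsGreatest {m : ℕ | ∃ F : Multiset (V × V), Admissible D k F ∧ F.card = m} μ := by
    have hfin : {m : ℕ | ∃ F : Multiset (V × V), Admissible D k F ∧ F.card = m}.Finite :=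
      (Set.finite_Iic D.card).subset (fun m hm => hbd m hm)
    obtain ⟨μ, hμ, hmax⟩ := Set.exists_max_image _ id hfin ⟨0, hne⟩
    exact ⟨μ, hμ, fun b hb => hmax b hb⟩
  refine ⟨μ, hμ, fun hs => minmax_in D k hD hs μ hμ, fun hs => ?_⟩
  have h1 := minmax_in (rev D) k ((conn_rev D k).2 hD)
    (by rw [delta_rev, rho_rev]; exact hs) μ (by rw [sizes_rev]; exact hμ)
  rwa [boundsIn_rev] at h1

end Pool.Agent.Results.MP_79518d_co.SplitMinMax
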